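import Pool.Agent.Lib.MP_b5021c_nt.IfaceK2

/-!
# MP_b5021c_nt, chapter K2, row LSP: the limit has full span
-/

namespace Pool.Agent.MP_b5021c_nt.K.H82

open Polynomial Filter Topology Pool.Agent.B5 Pool.Agent.MP_b5021c_nt

/-- Constant coefficient of a quotient sequence. -/
theorem quot_zero {a : ℕ → ℤ} {Y Q : ℤ[X]} (hQ : Q.coeff 0 = 1) (h : IsQuot a Y Q) :
    Y.coeff 0 = a 0 := by
  have h1 := congrArg (PowerSeries.coeff (R := ℤ) 0) h
  rw [PowerSeries.coeff_mul, Finset.Nat.antidiagonal_zero, Finset.sum_singleton] at h1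
  simp only [PowerSeries.coeff_mk, Polynomial.coeff_coe] at h1
  rw [hQ, mul_one] at h1
  exact h1.symm

theorem lsp : LspS := by
  intro ι _ _ D D' a b hsp hD hD' ha hb hlim
  have hev : ∀ᶠ n in atTop, ∀ S : Finset ι, a n S 0 = b S 0 :=
    Filter.eventually_all.2 fun S => hlim S 0
  obtain ⟨n, hn⟩ := hev.exists
  have hco : ∀ S : Finset ι, (D n S).coeff 0 = (D' S).coeff 0 := by
    intro S
    rw [quot_zero (hD n) (ha n S), quot_zero hD' (hb S), hn S]
  have h := hsp n
  unfold SpanK at h ⊢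
  rw [← h]
  congr 1
  ext v
  simp only [Set.mem_ofPred_eq, hco]

end Pool.Agent.MP_b5021c_nt.K.H82
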